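import Pool.Agent.H24.Lsh2

set_option autoImplicit false

open Pool.Agent.H24.Lsh

theorem Pool.Agent.Results.MP_401231_co.Q1No.result :
    ∃ (n : ℕ) (G : SimpleGraph (Fin n)), PlaneDrawn G ∧
      ∀ k : Edge G → ℕ, ¬ IsLGraph (evenSub G k)ᶜ :=
  ⟨15, P3, planar, notL⟩
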