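import Pool.Agent.H24.Lsh1

set_option autoImplicit false

open Pool.Agent.H24.Lsh

theorem Pool.Agent.Results.MP_401231_co.Q2Yes.result :
    ∀ (n : ℕ) (G : SimpleGraph (Fin n)), ∃ k : Edge G → ℕ, IsB1VPG (evenSub G k)ᶜ :=
  fun _ G => ⟨fun _ => 1, b1 G⟩
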